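import Pool.Agent.E8helper49.PC.Stm

/-!
# Project PC, piece SPLIT

The decomposition groups above `3` meet the automorphisms that fix `ω` trivially.
-/

set_option autoImplicit false

namespace Pool.Agent.E8helper4.PC

open NumberField Pool.Agent.E8helper49.PC

/-- One cube root: if `θ ^ 3 = l = 1 + 9 k`, then `σ θ = θ`. -/
theorem fix_root {Ω : Type} [Field Ω] [NumberField Ω] (ω θ : Ω) (k : ℕ)
    (hω : ω ^ 2 + ω + 1 = 0) (hθ : θ ^ 3 = 1 + 9 * (k : Ω))
    (P : Ideal (𝓞 Ω)) (hP : P.IsPrime) (h3 : (3 : 𝓞 Ω) ∈ P) (σ : Ω ≃ₐ[ℚ] Ω)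
    (hσ : ∀ x y : 𝓞 Ω, (y : Ω) = σ (x : Ω) → x ∈ P → y ∈ P) (hσω : σ ω = ω) : σ θ = θ := by
  classical
  -- the element `π = 2 ω + 1`
  have hπ2 : (2 * ω + 1) ^ 2 = -3 := by linear_combination 4 * hω
  have h30 : (3 : Ω) ≠ 0 := by norm_num
  have hπ0 : 2 * ω + 1 ≠ 0 := by
    intro h
    rw [h] at hπ2
    apply h30
    linear_combination hπ2
  have hω3 : ω ^ 3 = 1 := by linear_combination (ω - 1) * hω
  obtain ⟨β, hβ⟩ : ∃ β : Ω, θ = 1 + (2 * ω + 1) * β :=
    ⟨(θ - 1) / (2 * ω + 1), by field_simp; ring⟩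
  -- the cubic equation of `β`
  have hcub : β ^ 3 - β = (2 * ω + 1) * (β ^ 2 + k) := by
    have h1 : (2 * ω + 1) ^ 3 * (β ^ 3 - β - (2 * ω + 1) * (β ^ 2 + k)) = 0 := by
      have h2 : (1 + (2 * ω + 1) * β) ^ 3 = 1 + 9 * (k : Ω) := by rw [← hβ]; exact hθ
      have h4 : (2 * ω + 1) ^ 3 = -3 * (2 * ω + 1) := by
        linear_combination (2 * ω + 1) * hπ2
      have h5 : (2 * ω + 1) ^ 4 = 9 := by
        linear_combination ((2 * ω + 1) ^ 2 - 3) * hπ2
      linear_combination h2 - 3 * β ^ 2 * hπ2 - β * h4 - β ^ 2 * h5 - k * h5 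
    rcases mul_eq_zero.1 h1 with h | h
    · exact absurd h (pow_ne_zero 3 hπ0)
    · linear_combination h
  have hβint : IsIntegral ℤ β := by
    refine ⟨Polynomial.X ^ 6 + Polynomial.X ^ 4 + Polynomial.C (1 + 6 * (k : ℤ)) * Polynomial.X ^ 2
      + Polynomial.C (3 * (k : ℤ) ^ 2), ?_, ?_⟩
    · monicity!
    · simp only [Polynomial.eval₂_add, Polynomial.eval₂_mul, Polynomial.eval₂_pow,
        Polynomial.eval₂_X, Polynomial.eval₂_C]
      push_cast
      simp only [map_add, map_mul, map_pow, map_one, map_ofNat, map_natCast]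
      have h6 : (β ^ 3 - β) ^ 2 = -3 * (β ^ 2 + k) ^ 2 := by
        rw [hcub, mul_pow, hπ2]
      linear_combination h6
  have hωint : IsIntegral ℤ ω := by
    refine ⟨Polynomial.X ^ 2 + Polynomial.X + 1, ?_, ?_⟩
    · monicity!
    · simp only [Polynomial.eval₂_add, Polynomial.eval₂_pow, Polynomial.eval₂_X,
        Polynomial.eval₂_one]
      exact hω
  have hθint : IsIntegral ℤ θ := by
    refine ⟨Polynomial.X ^ 3 - Polynomial.C (1 + 9 * (k : ℤ)), ?_, ?_⟩
    · monicity!
    · simp only [Polynomial.eval₂_sub, Polynomial.eval₂_pow, Polynomial.eval₂_X,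
        Polynomial.eval₂_C]
      push_cast
      simp only [map_add, map_mul, map_one, map_ofNat, map_natCast]
      linear_combination hθ
  have hsβint : IsIntegral ℤ (σ β) := hβint.map (σ.toAlgHom.restrictScalars ℤ)
  set b : 𝓞 Ω := ⟨β, hβint⟩ with hb
  set sb : 𝓞 Ω := ⟨σ β, hsβint⟩ with hsb
  set w : 𝓞 Ω := ⟨ω, hωint⟩ with hw
  set t : 𝓞 Ω := ⟨θ, hθint⟩ with ht
  have hbv : (b : Ω) = β := rfl
  have hsbv : (sb : Ω) = σ β := rfl
  have hwv : (w : Ω) = ω := rfl
  have htv : (t : Ω) = θ := rfl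
  have hp2 : (2 * w + 1) ^ 2 = -3 := by
    apply RingOfIntegers.ext
    push_cast
    simp only [map_add, map_mul, map_pow, map_one, map_neg, map_ofNat, hwv]
    exact hπ2
  have hpP : 2 * w + 1 ∈ P := by
    apply hP.mem_of_pow_mem 2
    rw [hp2]
    exact P.neg_mem h3
  have hb3 : b * ((b - 1) * (b + 1)) = (2 * w + 1) * (b ^ 2 + k) := by
    apply RingOfIntegers.ext
    simp only [map_add, map_mul, map_pow, map_one, map_sub, map_ofNat, map_natCast, hwv, hbv]
    linear_combination hcub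
  have hbP : b * ((b - 1) * (b + 1)) ∈ P := by
    rw [hb3]
    exact P.mul_mem_right _ hpP
  have hdiff : sb - b ∈ P := by
    rcases hP.mem_or_mem hbP with h | h
    · exact P.sub_mem (hσ b sb rfl h) h
    · rcases hP.mem_or_mem h with h | h
      · have h' : sb - 1 ∈ P := hσ (b - 1) (sb - 1) (by
          simp only [map_sub, map_one, hbv, hsbv]) h
        have := P.sub_mem h' h
        simpa using this
      · have h' : sb + 1 ∈ P := hσ (b + 1) (sb + 1) (by
          simp only [map_add, map_one, hbv, hsbv]) h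
        have := P.sub_mem h' h
        simpa using this
  -- `l` is not in `P`
  have hlP : ((1 : 𝓞 Ω) + 9 * (k : 𝓞 Ω)) ∉ P := by
    intro h
    apply hP.ne_top
    rw [Ideal.eq_top_iff_one]
    have h9 : 9 * (k : 𝓞 Ω) ∈ P := by
      have : 9 * (k : 𝓞 Ω) = 3 * (3 * k) := by ring
      rw [this]
      exact P.mul_mem_right _ h3
    have := P.sub_mem h h9
    simpa using this
  -- the values of `σ θ`
  have hσθ3 : (σ θ) ^ 3 = θ ^ 3 := by
    rw [← map_pow, hθ, map_add, map_mul, map_one, map_natCast, map_ofNat]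
  have hfac : (σ θ - θ) * ((σ θ - ω * θ) * (σ θ - ω ^ 2 * θ)) = 0 := by
    have : (σ θ - θ) * ((σ θ - ω * θ) * (σ θ - ω ^ 2 * θ)) = (σ θ) ^ 3 - θ ^ 3 := by
      linear_combination (-(σ θ) ^ 2 * θ + σ θ * θ ^ 2) * hω + (σ θ * θ ^ 2 - θ ^ 3) * hω3
    rw [this, hσθ3, sub_self]
  have hσβ : σ θ = 1 + (2 * ω + 1) * σ β := by
    conv_lhs => rw [hβ]
    rw [map_add, map_mul, map_add, map_mul, map_one, map_ofNat, hσω]
  rcases mul_eq_zero.1 hfac with h | h
  · exact sub_eq_zero.1 h
  · exfalso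
    rcases mul_eq_zero.1 h with h | h
    · -- `σ β - β = - ω ^ 2 θ`
      have h1 : σ β - β = -(ω ^ 2 * θ) := by
        apply mul_left_cancel₀ hπ0
        linear_combination h + hβ - hσβ + 2 * θ * hω3 + θ * hω
      have h2 : sb - b = -(w ^ 2 * t) := by
        apply RingOfIntegers.ext
        simp only [map_mul, map_pow, map_neg, map_sub, hwv, hbv, hsbv, htv]
        exact h1
      rw [h2] at hdiff
      have h3' : (-(w ^ 2 * t)) ^ 3 ∈ P := P.pow_mem_of_mem hdiff 3 (by norm_num)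
      have h4 : (-(w ^ 2 * t)) ^ 3 = -(1 + 9 * (k : 𝓞 Ω)) := by
        apply RingOfIntegers.ext
        simp only [map_mul, map_pow, map_neg, map_add, map_one, map_ofNat, map_natCast, hwv, htv]
        linear_combination (-(ω ^ 6)) * hθ + (-(1 + 9 * (k : Ω))) * (ω ^ 3 + 1) * hω3
      rw [h4] at h3'
      exact hlP (by simpa using P.neg_mem h3')
    · have h1 : σ β - β = ω * θ := by
        apply mul_left_cancel₀ hπ0
        linear_combination h + hβ - hσβ - θ * hω
      have h2 : sb - b = w * t := by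
        apply RingOfIntegers.ext
        simp only [map_mul, map_sub, hwv, hbv, hsbv, htv]
        exact h1
      rw [h2] at hdiff
      have h3' : (w * t) ^ 3 ∈ P := P.pow_mem_of_mem hdiff 3 (by norm_num)
      have h4 : (w * t) ^ 3 = 1 + 9 * (k : 𝓞 Ω) := by
        apply RingOfIntegers.ext
        simp only [map_mul, map_pow, map_add, map_one, map_ofNat, map_natCast, hwv, htv]
        linear_combination (ω ^ 3) * hθ + (1 + 9 * (k : Ω)) * hω3
      rw [h4] at h3'
      exact hlP h3'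

theorem t_SPLIT : S_SPLIT := by
  intro M Ω _ _ hM hClo ω hω P hP h3 σ hσ hσω
  obtain ⟨ω', r, hω', hr, hgen⟩ := hClo
  -- `ω'` is fixed
  have hfω' : σ ω' = ω' := by
    have hfac : (ω - ω') * (ω + ω' + 1) = 0 := by linear_combination hω - hω'
    rcases mul_eq_zero.1 hfac with h | h
    · rw [← sub_eq_zero.1 h]; exact hσω
    · have : ω' = -ω - 1 := by linear_combination h
      rw [this]
      simp [hσω]
  let S : Subfield Ω := (AlgEquiv.toRingEquiv σ : Ω ≃+* Ω).toRingHom.eqLocusField (RingHom.id Ω)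
  have hS : S = ⊤ := by
    apply hgen S
    · show σ ω' = ω'
      exact hfω'
    · intro l hl
      show σ (r l) = r l
      obtain ⟨hlp, hl9⟩ := hM l hl
      have hl' : l = 1 + 9 * (l / 9) := by omega
      apply fix_root ω (r l) (l / 9) hω _ P hP h3 σ hσ hσω
      rw [hr l hl]
      conv_lhs => rw [hl']
      push_cast
      ring
  apply AlgEquiv.ext
  intro x
  have hx : x ∈ S := by rw [hS]; exact Subfield.mem_top x
  exact hx

end Pool.Agent.E8helper4.PC
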